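import Pool.Agent.H3Z.RModel

namespace Pool.Agent.Results.MP_446da5_lc.GenMeasurableNoChoose

open Pool.Agent.H3Z

/-- If there is a measurable cardinal, then there is a countable transitive model of ZFC with an
uncountable regular cardinal `κ` that is generically measurable as witnessed by a `<ω`-closed
forcing, while Choose has no winning strategy in `U(κ, ≤ω)`. -/
theorem result (h : ∃ μ : Cardinal.{0}, IsMeasurableCardinal μ) :
    ∃ W : Set ZFSet.{0}, CohenE.CTM W ∧ ∃ κ P R : ZFSet.{0},
      RegUnc W κ ∧ ClosedForcing W ZFSet.omega P R ∧ GenMeasurable W κ P R ∧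
      ¬ WinsWeak W κ ZFSet.omega :=
  genmeas_model h

end Pool.Agent.Results.MP_446da5_lc.GenMeasurableNoChoose
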